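import Mathlib

set_option autoImplicit false
set_option linter.unusedVariables false

namespace Pool.Agent.Results.MP_e115c2_nt.ExpansionBound

open Filter Topology Finset

/-- `W p q` is the set of infinite words `a 0, a 1, ...` over `{0, ..., p-1}` such that the sequence
`n 0 = 0`, `n (k+1) = (p * n k + a k) / q` consists of natural numbers. -/
def W (p q : ℕ) : Set (ℕ → ℕ) :=
  {a | (∀ i, a i < p) ∧ ∃ n : ℕ → ℕ, n 0 = 0 ∧ ∀ k, q * n (k + 1) = p * n k + a k}

/-- The value of a word: `∑_{i ≥ 1} (a_i / q) (p/q)^{-i}`, with `a_i` written `a (i-1)`. -/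
noncomputable def value (p q : ℕ) (a : ℕ → ℕ) : ℝ :=
  ∑' i : ℕ, ((a i : ℝ) / q) * ((p : ℝ) / q) ^ (-((i : ℤ) + 1))

/-- The set of `p/q`-expansions of the real number `x`. -/
def expansions (p q : ℕ) (x : ℝ) : Set (ℕ → ℕ) := {a | a ∈ W p q ∧ value p q a = x}

lemma term_eq (p q : ℕ) (hq : 0 < q) (hp : 0 < p) (a : ℕ → ℕ) (i : ℕ) :
    ((a i : ℝ) / q) * ((p : ℝ) / q) ^ (-((i : ℤ) + 1)) = (a i : ℝ) / q * ((q : ℝ) / p) ^ (i + 1) := by
  have h1 : (p : ℝ) / q ≠ 0 := by positivity
  rw [zpow_neg, show ((i : ℤ) + 1) = ((i + 1 : ℕ) : ℤ) by push_cast; ring, zpow_natCast, ← inv_pow,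
    inv_div]

lemma partial_sum (p q : ℕ) (hq : 0 < q) (hp : 0 < p) (a n : ℕ → ℕ) (h0 : n 0 = 0)
    (hn : ∀ k, q * n (k + 1) = p * n k + a k) (k : ℕ) :
    ∑ i ∈ range k, (a i : ℝ) / q * ((q : ℝ) / p) ^ (i + 1) = ((q : ℝ) / p) ^ k * n k := by
  have hqr : (q : ℝ) ≠ 0 := by positivity
  have hpr : (p : ℝ) ≠ 0 := by positivity
  induction k with
  | zero => simp [h0]
  | succ k ih =>
    rw [sum_range_succ, ih]
    have h1 : (q : ℝ) * n (k + 1) = p * n k + a k := by exact_mod_cast hn k
    have h2 : (n (k + 1) : ℝ) = (p * n k + a k) / q := by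
      rw [eq_div_iff hqr]; linarith
    rw [h2, pow_succ]
    field_simp

lemma summable_terms (p q : ℕ) (hq : 0 < q) (hpq : q < p) (a : ℕ → ℕ) (ha : ∀ i, a i < p) :
    Summable (fun i : ℕ => (a i : ℝ) / q * ((q : ℝ) / p) ^ (i + 1)) := by
  have hqr : (0 : ℝ) < q := by exact_mod_cast hq
  have hpr : (0 : ℝ) < p := by exact_mod_cast (hq.trans hpq)
  have hr0 : (0 : ℝ) ≤ (q : ℝ) / p := by positivity
  have hr1 : (q : ℝ) / p < 1 := by
    rw [div_lt_one hpr]
    exact_mod_cast hpq
  have hs : Summable (fun i : ℕ => (p : ℝ) / q * ((q : ℝ) / p) * ((q : ℝ) / p) ^ i) :=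
    (summable_geometric_of_lt_one hr0 hr1).mul_left _
  refine Summable.of_nonneg_of_le (fun i => by positivity) (fun i => ?_) hs
  rw [pow_succ]
  have h1 : (a i : ℝ) ≤ p := by exact_mod_cast (ha i).le
  calc (a i : ℝ) / q * (((q : ℝ) / p) ^ i * ((q : ℝ) / p))
      ≤ (p : ℝ) / q * (((q : ℝ) / p) ^ i * ((q : ℝ) / p)) := by gcongr
    _ = (p : ℝ) / q * ((q : ℝ) / p) * ((q : ℝ) / p) ^ i := by ring

lemma value_iff (p q : ℕ) (hq : 0 < q) (hpq : q < p) (a n : ℕ → ℕ) (ha : ∀ i, a i < p)
    (h0 : n 0 = 0) (hn : ∀ k, q * n (k + 1) = p * n k + a k) (x : ℝ) :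
    value p q a = x ↔ Tendsto (fun k => ((q : ℝ) / p) ^ k * n k) atTop (𝓝 x) := by
  have hs := summable_terms p q hq hpq a ha
  have h1 : value p q a = ∑' i : ℕ, (a i : ℝ) / q * ((q : ℝ) / p) ^ (i + 1) := by
    unfold value
    exact tsum_congr (fun i => term_eq p q hq (hq.trans hpq) a i)
  have h2 := hs.hasSum.tendsto_sum_nat
  have h3 : (fun k => ∑ i ∈ range k, (a i : ℝ) / q * ((q : ℝ) / p) ^ (i + 1)) =
      fun k => ((q : ℝ) / p) ^ k * (n k : ℝ) := by
    funext k
    exact partial_sum p q hq (hq.trans hpq) a n h0 hn k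
  rw [h3] at h2
  rw [h1]
  constructor
  · intro h; rwa [h] at h2
  · intro h; exact tendsto_nhds_unique h2 h

/-- a path in the tree with the limit `x` -/
structure IsPath (p q : ℕ) (x : ℝ) (n : ℕ → ℕ) : Prop where
  zero : n 0 = 0
  low : ∀ k, p * n k ≤ q * n (k + 1)
  up : ∀ k, q * n (k + 1) < p * n k + p
  lim : Tendsto (fun k => ((q : ℝ) / p) ^ k * n k) atTop (𝓝 x)

/-- The labels at level `k` of the paths of value `x`. -/
def A (p q : ℕ) (x : ℝ) (k : ℕ) : Set ℕ := {m | ∃ n, IsPath p q x n ∧ n k = m}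

section
variable {p q : ℕ} {x : ℝ}

lemma IsPath.le_lim {n : ℕ → ℕ} (h : IsPath p q x n) (hq : 0 < q) (hpq : q < p) (k : ℕ) :
    ((q : ℝ) / p) ^ k * n k ≤ x := by
  have hpr : (0 : ℝ) < p := by exact_mod_cast (hq.trans hpq)
  have hmono : Monotone (fun k => ((q : ℝ) / p) ^ k * (n k : ℝ)) := by
    apply monotone_nat_of_le_succ
    intro k
    rw [pow_succ]
    have h1 : (p : ℝ) * n k ≤ q * n (k + 1) := by exact_mod_cast h.low k
    have h2 : (n k : ℝ) ≤ (q : ℝ) / p * n (k + 1) := by
      rw [div_mul_eq_mul_div, le_div_iff₀ hpr]; linarith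
    calc ((q : ℝ) / p) ^ k * (n k : ℝ) ≤ ((q : ℝ) / p) ^ k * ((q : ℝ) / p * n (k + 1)) := by gcongr
      _ = _ := by ring
  exact hmono.ge_of_tendsto h.lim k

lemma IsPath.lim_le {n : ℕ → ℕ} (h : IsPath p q x n) (hq : 0 < q) (hpq : q < p) (k : ℕ) :
    x ≤ ((q : ℝ) / p) ^ k * (n k + (p - 1) / (p - q)) := by
  have hpr : (0 : ℝ) < p := by exact_mod_cast (hq.trans hpq)
  have hqr : (0 : ℝ) < q := by exact_mod_cast hq
  have hd : (0 : ℝ) < (p : ℝ) - q := by
    have : (q : ℝ) < p := by exact_mod_cast hpq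
    linarith
  have hr0 : (0 : ℝ) ≤ (q : ℝ) / p := by positivity
  have hr1 : (q : ℝ) / p < 1 := by
    rw [div_lt_one hpr]
    exact_mod_cast hpq
  have hanti : Antitone (fun k => ((q : ℝ) / p) ^ k * ((n k : ℝ) + (p - 1) / (p - q))) := by
    apply antitone_nat_of_succ_le
    intro k
    rw [pow_succ]
    have h1 : (q : ℝ) * n (k + 1) + 1 ≤ p * n k + p := by exact_mod_cast h.up k
    have h2 : (q : ℝ) / p * ((n (k + 1) : ℝ) + (p - 1) / (p - q)) ≤ (n k : ℝ) + (p - 1) / (p - q) := by
      have h3 : (q : ℝ) / p * ((n (k + 1) : ℝ) + (p - 1) / (p - q)) =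
        (q * n (k + 1)) / p + q * (p - 1) / (p * (p - q)) := by field_simp
      have h4 : (q : ℝ) * n (k + 1) / p ≤ n k + (p - 1) / p := by
        rw [div_le_iff₀ hpr]
        field_simp
        linarith
      have h5 : (p - 1 : ℝ) / p + q * (p - 1) / (p * (p - q)) = (p - 1) / (p - q) := by
        field_simp
        ring
      rw [h3]
      linarith
    calc ((q : ℝ) / p) ^ k * ((q : ℝ) / p) * ((n (k + 1) : ℝ) + (p - 1) / (p - q))
        = ((q : ℝ) / p) ^ k * ((q : ℝ) / p * ((n (k + 1) : ℝ) + (p - 1) / (p - q))) := by ring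
      _ ≤ ((q : ℝ) / p) ^ k * ((n k : ℝ) + (p - 1) / (p - q)) := by gcongr
  have hlim : Tendsto (fun k => ((q : ℝ) / p) ^ k * ((n k : ℝ) + (p - 1) / (p - q))) atTop (𝓝 x) := by
    have h1 := h.lim
    have h2 : Tendsto (fun k : ℕ => ((q : ℝ) / p) ^ k * (((p : ℝ) - 1) / (p - q))) atTop (𝓝 0) := by
      have := (tendsto_pow_atTop_nhds_zero_of_lt_one hr0 hr1).mul_const (((p : ℝ) - 1) / (p - q))
      simpa using this
    have h3 := h1.add h2
    rw [add_zero] at h3
    refine h3.congr (fun k => ?_)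
    ring
  exact hanti.le_of_tendsto hlim k

lemma A_close (hq : 0 < q) (hpq : q < p) (k : ℕ) (m m' : ℕ) (hm : m ∈ A p q x k)
    (hm' : m' ∈ A p q x k) : m' ≤ m + p := by
  obtain ⟨n, hn, rfl⟩ := hm
  obtain ⟨n', hn', rfl⟩ := hm'
  have hpr : (0 : ℝ) < p := by exact_mod_cast (hq.trans hpq)
  have hqr : (0 : ℝ) < q := by exact_mod_cast hq
  have hd : (1 : ℝ) ≤ (p : ℝ) - q := by
    have : (q : ℝ) + 1 ≤ p := by exact_mod_cast hpq
    linarith
  have h1 := hn'.le_lim hq hpq k
  have h2 := hn.lim_le hq hpq k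
  have h3 : (n' k : ℝ) ≤ n k + (p - 1) / (p - q) := by
    have h4 := h1.trans h2
    have h5 : (0 : ℝ) < ((q : ℝ) / p) ^ k := by positivity
    exact le_of_mul_le_mul_left h4 h5
  have h4 : ((p : ℝ) - 1) / (p - q) ≤ p := by
    rw [div_le_iff₀ (by linarith)]
    nlinarith
  have h5 : (n' k : ℝ) ≤ n k + p := by linarith
  exact_mod_cast h5

lemma A_finite (hq : 0 < q) (hpq : q < p) (k : ℕ) : (A p q x k).Finite := by
  by_cases h : (A p q x k).Nonempty
  · obtain ⟨m, hm⟩ := h
    apply (Set.finite_Iic (m + p)).subset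
    intro m' hm'
    exact A_close hq hpq k m m' hm hm'
  · rw [Set.not_nonempty_iff_eq_empty] at h
    rw [h]; exact Set.finite_empty

lemma IsPath.div_eq {n : ℕ → ℕ} (h : IsPath p q x n) (hp : 0 < p) (k : ℕ) :
    q * n (k + 1) / p = n k := by
  apply Nat.div_eq_of_lt_le
  · rw [mul_comm]; exact h.low k
  · have := h.up k
    rw [Nat.succ_mul, mul_comm (n k) p]; exact this

lemma A_succ (hq : 0 < q) (hpq : q < p) (k : ℕ) :
    A p q x k = (fun m => q * m / p) '' A p q x (k + 1) := by
  ext m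
  constructor
  · rintro ⟨n, hn, rfl⟩
    exact ⟨n (k + 1), ⟨n, hn, rfl⟩, hn.div_eq (hq.trans hpq) k⟩
  · rintro ⟨m', ⟨n, hn, rfl⟩, rfl⟩
    exact ⟨n, hn, (hn.div_eq (hq.trans hpq) k).symm⟩

lemma A_card_mono (hq : 0 < q) (hpq : q < p) : Monotone (fun k => (A p q x k).ncard) := by
  apply monotone_nat_of_le_succ
  intro k
  rw [A_succ hq hpq k]
  exact Set.ncard_image_le (A_finite hq hpq (k + 1))

lemma A_card_le (hq : 0 < q) (hpq : q < p) (k : ℕ) : (A p q x k).ncard ≤ p + 1 := by
  by_cases h : (A p q x k).Nonempty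
  · have hm := Nat.sInf_mem h
    have hsub : A p q x k ⊆ Set.Icc (sInf (A p q x k)) (sInf (A p q x k) + p) := by
      intro m' hm'
      exact ⟨Nat.sInf_le hm', A_close hq hpq k _ m' hm hm'⟩
    have h1 := Set.ncard_le_ncard hsub (Set.finite_Icc _ _)
    have h2 : (Set.Icc (sInf (A p q x k)) (sInf (A p q x k) + p)).ncard = p + 1 := by
      rw [← Finset.coe_Icc, Set.ncard_coe_finset, Nat.card_Icc]
      omega
    omega
  · rw [Set.not_nonempty_iff_eq_empty] at h
    rw [h, Set.ncard_empty]; omega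

/-- Between two labels of paths of value `x`, every integer is such a label. -/
lemma A_ordConnected (hq : 0 < q) (hpq : q < p) (k : ℕ) (m1 m2 m : ℕ) (h1 : m1 ∈ A p q x k)
    (h2 : m2 ∈ A p q x k) (hm1 : m1 < m) (hm2 : m ≤ m2) : m ∈ A p q x k := by
  obtain ⟨n1, hn1, rfl⟩ := h1
  obtain ⟨n2, hn2, rfl⟩ := h2
  have hp : 0 < p := hq.trans hpq
  -- backward iterates from `m`
  let b : ℕ → ℕ := fun j => (fun y => q * y / p)^[j] m
  -- forward iterates from `m`
  let f : ℕ → ℕ := fun j => (fun y => (p * y + (q - 1)) / q)^[j] m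
  have hb0 : b 0 = m := rfl
  have hf0 : f 0 = m := rfl
  have hbs : ∀ j, b (j + 1) = q * b j / p := fun j => Function.iterate_succ_apply' _ _ _
  have hfs : ∀ j, f (j + 1) = (p * f j + (q - 1)) / q := fun j => Function.iterate_succ_apply' _ _ _
  let N : ℕ → ℕ := fun j => if j ≤ k then b (k - j) else f (j - k)
  have hNk : N k = m := by simp [N, hb0]
  have hNb : ∀ j, j < k → N j = q * N (j + 1) / p := by
    intro j hj
    have e1 : N j = b (k - j) := by simp [N, hj.le]
    have e2 : N (j + 1) = b (k - (j + 1)) := by simp [N, Nat.succ_le_of_lt hj]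
    rw [e1, e2, show k - j = (k - (j + 1)) + 1 by omega, hbs]
  have hNf : ∀ j, k ≤ j → N (j + 1) = (p * N j + (q - 1)) / q := by
    intro j hj
    have e1 : N (j + 1) = f (j + 1 - k) := by simp [N, show ¬ (j + 1 ≤ k) by omega]
    have e2 : N j = f (j - k) := by
      rcases hj.eq_or_lt with h | h
      · subst h; simp [N, hb0, hf0]
      · simp [N, show ¬ (j ≤ k) by omega]
    rw [e1, e2, show j + 1 - k = (j - k) + 1 by omega, hfs]
  have hlow : ∀ j, p * N j ≤ q * N (j + 1) := by
    intro j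
    rcases lt_or_ge j k with h | h
    · rw [hNb j h]
      exact Nat.mul_div_le _ _
    · rw [hNf j h]
      have e := Nat.lt_mul_div_succ (p * N j + (q - 1)) hq
      have e2 : q * ((p * N j + (q - 1)) / q + 1) = q * ((p * N j + (q - 1)) / q) + q := by ring
      omega
  have hup : ∀ j, q * N (j + 1) < p * N j + p := by
    intro j
    rcases lt_or_ge j k with h | h
    · rw [hNb j h]
      have e := Nat.lt_mul_div_succ (q * N (j + 1)) hp
      have e2 : p * (q * N (j + 1) / p + 1) = p * (q * N (j + 1) / p) + p := by ring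
      omega
    · rw [hNf j h]
      have e := Nat.mul_div_le (p * N j + (q - 1)) q
      omega
  -- comparison with the two given paths
  have hcmp : ∀ j, n1 j ≤ N j ∧ N j ≤ n2 j := by
    have hback : ∀ i, i ≤ k → n1 (k - i) ≤ N (k - i) ∧ N (k - i) ≤ n2 (k - i) := by
      intro i
      induction i with
      | zero => intro _; simp only [Nat.sub_zero]; rw [hNk]; exact ⟨hm1.le, hm2⟩
      | succ i ih =>
        intro hi
        obtain ⟨e1, e2⟩ := ih (by omega)
        have e3 : k - i = (k - (i + 1)) + 1 := by omega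
        rw [e3] at e1 e2
        rw [hNb _ (by omega : k - (i + 1) < k), ← hn1.div_eq hp, ← hn2.div_eq hp]
        exact ⟨Nat.div_le_div_right (Nat.mul_le_mul_left _ e1),
          Nat.div_le_div_right (Nat.mul_le_mul_left _ e2)⟩
    have hforw : ∀ i, n1 (k + i) < N (k + i) ∧ N (k + i) ≤ n2 (k + i) := by
      intro i
      induction i with
      | zero => simp only [Nat.add_zero]; rw [hNk]; exact ⟨hm1, hm2⟩
      | succ i ih =>
        obtain ⟨e1, e2⟩ := ih
        constructor
        · have f1 := hn1.up (k + i)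
          have f2 := hlow (k + i)
          have f3 : p * n1 (k + i) + p ≤ p * N (k + i) := by
            have : n1 (k + i) + 1 ≤ N (k + i) := e1
            calc p * n1 (k + i) + p = p * (n1 (k + i) + 1) := by ring
              _ ≤ p * N (k + i) := Nat.mul_le_mul_left _ this
          have f4 : q * n1 (k + i + 1) < q * N (k + i + 1) := by omega
          exact lt_of_mul_lt_mul_left f4 (Nat.zero_le _)
        · have f1 := hn2.low (k + i)
          have f3 : p * N (k + i) ≤ p * n2 (k + i) := Nat.mul_le_mul_left _ e2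
          have f4 := hNf (k + i) (by omega)
          show N (k + i + 1) ≤ n2 (k + i + 1)
          rw [f4]
          have f5 : (p * N (k + i) + (q - 1)) / q ≤ (q * n2 (k + i + 1) + (q - 1)) / q :=
            Nat.div_le_div_right (by omega)
          have f6 : (q * n2 (k + i + 1) + (q - 1)) / q = n2 (k + i + 1) := by
            rw [Nat.mul_add_div hq, Nat.div_eq_of_lt (by omega), add_zero]
          omega
    intro j
    rcases le_total j k with h | h
    · have := hback (k - j) (by omega)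
      rwa [show k - (k - j) = j by omega] at this
    · have := hforw (j - k)
      rw [show k + (j - k) = j by omega] at this
      exact ⟨this.1.le, this.2⟩
  refine ⟨N, ⟨?_, hlow, hup, ?_⟩, hNk⟩
  · have := (hcmp 0).2
    rw [hn2.zero] at this
    omega
  · refine tendsto_of_tendsto_of_tendsto_of_le_of_le hn1.lim hn2.lim ?_ ?_
    · intro j
      have : (n1 j : ℝ) ≤ N j := by exact_mod_cast (hcmp j).1
      show ((q : ℝ) / p) ^ j * (n1 j : ℝ) ≤ ((q : ℝ) / p) ^ j * (N j : ℝ)
      gcongr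
    · intro j
      have : (N j : ℝ) ≤ n2 j := by exact_mod_cast (hcmp j).2
      show ((q : ℝ) / p) ^ j * (N j : ℝ) ≤ ((q : ℝ) / p) ^ j * (n2 j : ℝ)
      gcongr

/-- The main bound on the number of labels. -/
lemma A_bound (hq : 0 < q) (hpq : q < p) (hcop : Nat.Coprime p q) (k : ℕ) :
    (A p q x k).ncard ≤ 2 + (q - 2) / (p - q) := by
  classical
  have hp : 0 < p := hq.trans hpq
  -- choose `K` maximising the cardinality
  obtain ⟨K, hK⟩ : ∃ K, ∀ j, (A p q x j).ncard ≤ (A p q x K).ncard := by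
    have hbdd : BddAbove (Set.range (fun k => (A p q x k).ncard)) :=
      ⟨p + 1, by rintro _ ⟨k, rfl⟩; exact A_card_le hq hpq k⟩
    have hne : (Set.range (fun k => (A p q x k).ncard)).Nonempty := ⟨_, ⟨0, rfl⟩⟩
    obtain ⟨K, hK⟩ := Nat.sSup_mem hne hbdd
    refine ⟨K, fun j => ?_⟩
    have hK' : (A p q x K).ncard = sSup (Set.range (fun k => (A p q x k).ncard)) := hK
    rw [hK']
    exact le_csSup hbdd ⟨j, rfl⟩
  refine (hK k).trans ?_
  set t := (A p q x K).ncard with ht
  by_contra hcon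
  push Not at hcon
  have ht3 : 3 ≤ t := by
    obtain ⟨e, he⟩ : ∃ e, (q - 2) / (p - q) = e := ⟨_, rfl⟩
    rw [he] at hcon
    omega
  have hcard : ∀ j, K ≤ j → (A p q x j).ncard = t := by
    intro j hj
    exact le_antisymm (hK j) (A_card_mono hq hpq hj)
  have hne : ∀ j, K ≤ j → (A p q x j).Nonempty := by
    intro j hj
    rw [← Set.ncard_pos (A_finite hq hpq j), hcard j hj]
    omega
  -- minimum
  let u : ℕ → ℕ := fun j => sInf (A p q x j)
  have hu : ∀ j, K ≤ j → u j ∈ A p q x j := fun j hj => Nat.sInf_mem (hne j hj)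
  have hule : ∀ j, ∀ m ∈ A p q x j, u j ≤ m := fun j m hm => Nat.sInf_le hm
  have hmax : ∀ j, K ≤ j → A p q x j = Set.Icc (u j) (u j + (t - 1)) := by
    intro j hj
    obtain ⟨w, hw, hwmax⟩ := Set.exists_max_image (A p q x j) id (A_finite hq hpq j) (hne j hj)
    have h1 : A p q x j = Set.Icc (u j) w := by
      apply Set.Subset.antisymm
      · intro m hm
        exact ⟨hule j m hm, hwmax m hm⟩
      · rintro m ⟨e1, e2⟩
        rcases e1.eq_or_lt with h | h
        · rw [← h]; exact hu j hj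
        · exact A_ordConnected hq hpq j _ w m (hu j hj) hw h e2
    have h2 : (A p q x j).ncard = w + 1 - u j := by
      rw [h1, ← Finset.coe_Icc, Set.ncard_coe_finset, Nat.card_Icc]
    rw [hcard j hj] at h2
    have h3 : u j ≤ w := hule j w hw
    rw [h1]
    congr 1
    omega
  -- transport of minimum and maximum
  have hmin' : ∀ j, K ≤ j → q * u (j + 1) / p = u j := by
    intro j hj
    apply le_antisymm
    · have h1 := hu j hj
      rw [A_succ hq hpq j] at h1
      obtain ⟨m, hm, h2⟩ := h1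
      simp only at h2
      rw [← h2]
      exact Nat.div_le_div_right (Nat.mul_le_mul_left _ (hule _ m hm))
    · apply hule
      rw [A_succ hq hpq j]
      exact ⟨u (j + 1), hu (j + 1) (by omega), rfl⟩
  have hmax' : ∀ j, K ≤ j → q * (u (j + 1) + (t - 1)) / p = u j + (t - 1) := by
    intro j hj
    have hmem : u j + (t - 1) ∈ A p q x j := by
      rw [hmax j hj]; exact ⟨by omega, le_rfl⟩
    have hmem' : u (j + 1) + (t - 1) ∈ A p q x (j + 1) := by
      rw [hmax (j + 1) (by omega)]; exact ⟨by omega, le_rfl⟩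
    apply le_antisymm
    · have : q * (u (j + 1) + (t - 1)) / p ∈ A p q x j := by
        rw [A_succ hq hpq j]
        exact ⟨_, hmem', rfl⟩
      rw [hmax j hj] at this
      exact this.2
    · rw [A_succ hq hpq j] at hmem
      obtain ⟨m, hm, h2⟩ := hmem
      simp only at h2
      rw [← h2]
      apply Nat.div_le_div_right
      apply Nat.mul_le_mul_left
      rw [hmax (j + 1) (by omega)] at hm
      exact hm.2
  -- the digit is `p - 1`
  have hdig : ∀ j, K ≤ j → q * u (j + 1) = p * u j + (p - 1) := by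
    intro j hj
    have e1 := hmin' j hj
    have e2 := hmax' j hj
    have f1 : q * u (j + 1) < p * u j + p := by
      have := Nat.lt_mul_div_succ (q * u (j + 1)) hp
      rw [e1] at this
      calc q * u (j + 1) < p * (u j + 1) := this
        _ = p * u j + p := by ring
    have f2 : p * (u j + (t - 1)) ≤ q * (u (j + 1) + (t - 1)) := by
      rw [← e2]
      exact Nat.mul_div_le _ _
    have f3 : p - 1 ≤ (t - 1) * (p - q) := by
      by_cases hq2 : 2 ≤ q
      · have g1 : (q - 2) / (p - q) < t - 2 := by omega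
        rw [Nat.div_lt_iff_lt_mul (by omega)] at g1
        have g2 : (t - 1) * (p - q) = (t - 2) * (p - q) + (p - q) := by
          rw [show t - 1 = (t - 2) + 1 by omega]; ring
        omega
      · have hq1 : q = 1 := by omega
        subst hq1
        calc p - 1 = 1 * (p - 1) := by ring
          _ ≤ (t - 1) * (p - 1) := Nat.mul_le_mul_right _ (by omega)
    -- combine
    obtain ⟨s, hs⟩ : ∃ s, t - 1 = s := ⟨_, rfl⟩
    obtain ⟨d, hd⟩ : ∃ d, p = q + d := ⟨p - q, by omega⟩
    have hpd : p - q = d := by omega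
    rw [hs] at f2 f3
    rw [hpd] at f3
    have f4 : q * (u (j + 1) + s) = q * u (j + 1) + q * s := by ring
    have f5 : p * (u j + s) = p * u j + q * s + s * d := by rw [hd]; ring
    rw [f4, f5] at f2
    omega
  by_cases hq1 : q = 1
  · -- then `t ≤ 2`
    subst hq1
    have e1 := hdig K le_rfl
    have e2 := hmax' K le_rfl
    have f2 : p * (u K + (t - 1)) ≤ 1 * (u (K + 1) + (t - 1)) := by
      rw [← e2]
      exact Nat.mul_div_le _ _
    obtain ⟨s, hs⟩ : ∃ s, t - 1 = s := ⟨_, rfl⟩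
    rw [hs] at f2
    have hs2 : 2 ≤ s := by omega
    have f3 : p * (u K + s) = p * u K + p * s := by ring
    rw [f3] at f2
    have f4 : p * s + 1 ≤ p + s := by omega
    nlinarith
  · -- infinite divisibility by `q`
    have hq2 : 2 ≤ q := by omega
    obtain ⟨d, hd⟩ : ∃ d, p = q + d := ⟨p - q, by omega⟩
    let Wt : ℕ → ℕ := fun i => d * u (K + i) + (p - 1)
    have hW : ∀ i, q * Wt (i + 1) = p * Wt i := by
      intro i
      have e := hdig (K + i) (by omega)
      have e' : q * u (K + (i + 1)) = p * u (K + i) + (p - 1) := e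
      show q * (d * u (K + (i + 1)) + (p - 1)) = p * (d * u (K + i) + (p - 1))
      calc q * (d * u (K + (i + 1)) + (p - 1)) = d * (q * u (K + (i + 1))) + q * (p - 1) := by ring
        _ = d * (p * u (K + i) + (p - 1)) + q * (p - 1) := by rw [e']
        _ = p * (d * u (K + i)) + (q + d) * (p - 1) := by ring
        _ = p * (d * u (K + i) + (p - 1)) := by rw [← hd]; ring
    have hdvd : ∀ i, q ^ i ∣ Wt 0 := by
      have h1 : ∀ i j, q ^ i ∣ Wt j := by
        intro i
        induction i with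
        | zero => intro j; simp
        | succ i ih =>
          intro j
          have h2 : q ^ (i + 1) ∣ p * Wt j := by
            rw [← hW j, pow_succ, mul_comm (q ^ i) q]
            exact Nat.mul_dvd_mul_left q (ih (j + 1))
          exact (Nat.Coprime.dvd_of_dvd_mul_left (Nat.Coprime.pow_left _ hcop.symm) h2)
      exact fun i => h1 i 0
    have hpos : 0 < Wt 0 := by
      show 0 < d * u (K + 0) + (p - 1)
      omega
    have h3 := Nat.le_of_dvd hpos (hdvd (Wt 0))
    have h4 : Wt 0 < q ^ (Wt 0) := Nat.lt_pow_self (by omega)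
    omega

end

/-- Every real number has at most `2 + ⌊(q-2)/(p-q)⌋` expansions in base `p/q`. -/
theorem result (p q : ℕ) (hq : 1 ≤ q) (hpq : q < p) (hcop : Nat.Coprime p q) (x : ℝ) :
    (expansions p q x).encard ≤ ((2 + (q - 2) / (p - q) : ℕ) : ℕ∞) := by
  classical
  have hp : 0 < p := by omega
  have hq' : 0 < q := hq
  -- choose the path of each word
  have hpath : ∀ a ∈ expansions p q x, ∃ n : ℕ → ℕ, IsPath p q x n ∧
      ∀ k, q * n (k + 1) = p * n k + a k := by
    rintro a ⟨⟨ha, n, h0, hn⟩, hv⟩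
    refine ⟨n, ⟨h0, ?_, ?_, ?_⟩, hn⟩
    · intro k; rw [hn k]; omega
    · intro k; rw [hn k]; have := ha k; omega
    · exact (value_iff p q hq' hpq a n ha h0 hn x).mp hv
  by_contra hcon
  push Not at hcon
  obtain ⟨F, hF, hFc⟩ := Set.exists_subset_encard_eq (Order.add_one_le_of_lt hcon)
  have hFfin : F.Finite := by
    rw [← Set.encard_lt_top_iff, hFc]
    exact_mod_cast ENat.natCast_lt_top _
  choose! n hn1 hn2 using hpath
  -- words are determined by their paths
  have hsep : ∀ a ∈ F, ∀ b ∈ F, a ≠ b → ∃ k0, ∀ k, k0 ≤ k → n a k ≠ n b k := by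
    intro a ha b hb hab
    have h1 : ∃ k, n a k ≠ n b k := by
      by_contra h
      push Not at h
      apply hab
      funext k
      have e1 := hn2 a (hF ha) k
      have e2 := hn2 b (hF hb) k
      rw [h (k + 1), h k] at e1
      omega
    obtain ⟨k0, hk0⟩ := h1
    refine ⟨k0, ?_⟩
    intro k hk
    induction k, hk using Nat.le_induction with
    | base => exact hk0
    | succ k _ ih =>
      intro h
      apply ih
      rw [← (hn1 a (hF ha)).div_eq hp k, ← (hn1 b (hF hb)).div_eq hp k, h]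
  choose! k0 hk0 using hsep
  let Ff := hFfin.toFinset
  obtain ⟨M, hM⟩ : ∃ M, ∀ a ∈ F, ∀ b ∈ F, k0 a b ≤ M := by
    refine ⟨Ff.sup (fun a => Ff.sup (fun b => k0 a b)), ?_⟩
    intro a ha b hb
    have ha' : a ∈ Ff := by simpa [Ff] using ha
    have hb' : b ∈ Ff := by simpa [Ff] using hb
    exact (Finset.le_sup (f := fun b => k0 a b) hb').trans
      (Finset.le_sup (f := fun a => Ff.sup (fun b => k0 a b)) ha')
  have hinj : Set.InjOn (fun a => n a M) F := by
    intro a ha b hb hab
    by_contra hne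
    exact hk0 a ha b hb hne M (hM a ha b hb) hab
  have hsub : (fun a => n a M) '' F ⊆ A p q x M := by
    rintro _ ⟨a, ha, rfl⟩
    exact ⟨n a, hn1 a (hF ha), rfl⟩
  have h1 : ((fun a => n a M) '' F).encard ≤ (A p q x M).encard := Set.encard_le_encard hsub
  rw [hinj.encard_image, hFc] at h1
  have h2 := A_bound (x := x) hq' hpq hcop M
  have h3 : (A p q x M).encard = ((A p q x M).ncard : ℕ∞) :=
    (A_finite hq' hpq M).cast_ncard_eq.symm
  rw [h3] at h1
  have h4 : 2 + (q - 2) / (p - q) + 1 ≤ (A p q x M).ncard := by exact_mod_cast h1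
  omega

end Pool.Agent.Results.MP_e115c2_nt.ExpansionBound
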