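import Mathlib
import Pool.Agent.PQ.Crit

/-!
MP_e115c2_nt (number of expansions of a real in rational base p/q).
Some real has at least `j` expansions iff there is an infinite integer sequence
`q n_{i+1} = p n_i + a_i` with `a_i` in a set of `q - (j - 2)(p - q)` consecutive digits.
-/

namespace Pool.Agent.Results.MP_e115c2_nt.SequenceCriterion

open Pool.Agent.PQ

theorem result (p q j : ℕ) (hq : 1 ≤ q) (hpq : q < p) (hj : 2 ≤ j) :
    List.TFAE [∃ x : ℝ, (j : ℕ∞) ≤ (expansions p q x).encard,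
      {x : ℝ | (j : ℕ∞) ≤ (expansions p q x).encard}.Infinite,
      ∃ n : ℕ → ℕ, 0 < n 0 ∧ ∀ i, ∃ a : ℕ, a + (j - 2) * (p - q) < q ∧ q * n (i + 1) = p * n i + a] :=
  criterion p q j hq hpq hj

end Pool.Agent.Results.MP_e115c2_nt.SequenceCriterion
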