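import Mathlib
import Pool.Agent.PQ.Sharp

/-!
MP_e115c2_nt (number of expansions of a real in rational base p/q).
At every depth `K`, the reals with `j ≥ 3` expansions which differ pairwise within the first `K` digits
are exponentially rare among the reals with two such expansions.
-/

namespace Pool.Agent.Results.MP_e115c2_nt.ThreeExpansionsRare

open Pool.Agent.PQ

theorem result (p q : ℕ) (hq2 : 2 ≤ q) (hpq : q < p) (hcop : Nat.Coprime p q) :
    ∃ c C : ℝ, 0 < c ∧ ∀ K : ℕ, 1 ≤ K →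
      {x : ℝ | 2 ≤ (pre p q x K).encard}.Finite ∧
      c * ((p : ℝ) / q) ^ K ≤ {x : ℝ | 2 ≤ (pre p q x K).encard}.ncard ∧
      ∀ j : ℕ, 2 ≤ j → (j - 2) * (p - q) < q →
        ({x : ℝ | (j : ℕ∞) ≤ (pre p q x K).encard}.ncard : ℝ) ≤
          C * (((p : ℝ) / q) ^ K) ^ (Real.log (q - (j - 2) * (p - q)) / Real.log q) :=
  final_sharp p q hq2 hpq hcop

end Pool.Agent.Results.MP_e115c2_nt.ThreeExpansionsRare
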